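import Pool.Agent.Q260.TE.Pine
import Pool.Agent.Q260.TE.TaskParent
import Pool.Agent.Q260.TE.TaskTree
import Pool.Agent.Q260.TE.TaskForest
import Pool.Agent.Q260.TE.TaskDom
import Pool.Agent.Q260.TE.TaskSpec
import Pool.Agent.Q260.TE.TaskPOne
import Pool.Agent.Q260.TE.TaskPTwo
import Pool.Agent.Q260.TE.TaskPMul
import Pool.Agent.Q260.TE.TaskLapOne
import Pool.Agent.Q260.TE.TaskLapTwo
import Pool.Agent.Q260.TE.TaskDeg

/-!
# MP_7a9f08_co: pineapples and the maximum Laplacian energy of graphs on `n` vertices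
-/

set_option autoImplicit false

namespace Pool.Agent.Results.MP_7a9f08_co.DominatingVertex

/-- Laplacian energy of a graph on `n` vertices: the sum of the `|λ - 2 m / n|` over the roots `λ`
of the characteristic polynomial of the Laplacian matrix, with multiplicity; `m` is the number of
edges. -/
noncomputable def lapEnergy {n : ℕ} (G : SimpleGraph (Fin n)) [DecidableRel G.Adj] : ℝ :=
  ((G.lapMatrix ℝ).charpoly.roots.map
    (fun x => |x - 2 * (G.edgeFinset.card : ℝ) / (n : ℝ)|)).sum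

/-- The number of the Laplacian eigenvalues (with multiplicity) which are greater than the average
degree `2 m / n`. -/
noncomputable def above {n : ℕ} (G : SimpleGraph (Fin n)) [DecidableRel G.Adj] : ℕ := by
  classical
  exact ((G.lapMatrix ℝ).charpoly.roots.filter
    (fun x => 2 * (G.edgeFinset.card : ℝ) / (n : ℝ) < x)).card

/-- The pineapple `PA(n, p)`: a complete graph on the vertices `0, …, p - 1`; all the other
vertices are joined to the vertex `0` only. -/
def PA (n p : ℕ) : SimpleGraph (Fin n) where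
  Adj i j := i ≠ j ∧ (i.1 = 0 ∨ j.1 = 0 ∨ (i.1 < p ∧ j.1 < p))
  symm := ⟨fun i j h => ⟨h.1.symm, by tauto⟩⟩
  loopless := ⟨fun _ h => h.1 rfl⟩

instance (n p : ℕ) : DecidableRel (PA n p).Adj :=
  fun i j => inferInstanceAs (Decidable (i ≠ j ∧ (i.1 = 0 ∨ j.1 = 0 ∨ (i.1 < p ∧ j.1 < p))))

/-- Let `G` be a connected graph with `n ≥ 2` vertices, `m` edges and `s = above G` Laplacian
eigenvalues greater than `2m/n`; put `c = n - 1 + C(s,2)`, the number of edges of `PA(n, s + 1)`.
(1) If `G` has a vertex adjacent to all others, or `s ≤ n/2`, or `m ≥ c`, or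
`2 (c - m) (n - s) ≥ s n`, then the Laplacian energy of `G` is at most that of a pineapple on `n`
vertices. (2) In all cases it is at most that of a pineapple plus `2 s`. -/
theorem result {n : ℕ} (hn : 2 ≤ n) (G : SimpleGraph (Fin n)) [DecidableRel G.Adj]
    (hc : G.Connected) :
    1 ≤ above G ∧ above G + 1 ≤ n ∧
    (((∃ u : Fin n, ∀ v, v ≠ u → G.Adj u v) ∨ 2 * above G ≤ n ∨
        n - 1 + (above G).choose 2 ≤ G.edgeFinset.card ∨
        (above G : ℝ) * n ≤ 2 * ((n : ℝ) - 1 + ((above G).choose 2 : ℕ) - G.edgeFinset.card) *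
          (n - above G)) →
      ∃ p, 2 ≤ p ∧ p ≤ n ∧ lapEnergy G ≤ lapEnergy (PA n p)) ∧
    ∃ p, 2 ≤ p ∧ p ≤ n ∧ lapEnergy G ≤ lapEnergy (PA n p) + 2 * above G :=
  Pool.Agent.Q260.TE.Pine.pine
    Pool.Agent.Q260.TE.TaskParent.main Pool.Agent.Q260.TE.TaskTree.main
    Pool.Agent.Q260.TE.TaskForest.main Pool.Agent.Q260.TE.TaskSpec.main
    Pool.Agent.Q260.TE.TaskDom.main
    Pool.Agent.Q260.TE.TaskPOne.main Pool.Agent.Q260.TE.TaskPTwo.main
    Pool.Agent.Q260.TE.TaskPMul.main Pool.Agent.Q260.TE.TaskLapOne.main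
    Pool.Agent.Q260.TE.TaskLapTwo.main Pool.Agent.Q260.TE.TaskDeg.main hn G hc

end Pool.Agent.Results.MP_7a9f08_co.DominatingVertex
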